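import Pool.Agent.Helper71.CK.Goals

set_option autoImplicit false

namespace Pool.Agent.Helper83.CK

open Pool.Agent.CK

theorem dirichlet : S_DIRICHLET := by
  intro V θ Q hQ
  have hQ0 : (0 : ℝ) < Q := by exact_mod_cast hQ
  have hlt : ∀ (k : ℕ) (x : ℤ), ⌊(Q : ℝ) * Int.fract ((k : ℝ) * θ x)⌋.toNat < Q := by
    intro k x
    have h1 : (Q : ℝ) * Int.fract ((k : ℝ) * θ x) < ((Q : ℤ) : ℝ) := by
      have := Int.fract_lt_one ((k : ℝ) * θ x)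
      push_cast
      nlinarith
    have h2 : ⌊(Q : ℝ) * Int.fract ((k : ℝ) * θ x)⌋ < (Q : ℤ) := Int.floor_lt.2 h1
    omega
  let f : ℕ → (V → Fin Q) := fun k x =>
    ⟨⌊(Q : ℝ) * Int.fract ((k : ℝ) * θ x)⌋.toNat, hlt k x⟩
  obtain ⟨k, hk, k', hk', hne, heq⟩ :=
    Finset.exists_ne_map_eq_of_card_lt_of_maps_to
      (s := Finset.range (Q ^ V.card + 1)) (t := (Finset.univ : Finset (V → Fin Q)))
      (by simp) (f := f) (fun _ _ => Finset.mem_univ _)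
  have key : ∀ k k' : ℕ, k < k' → k' ≤ Q ^ V.card → f k = f k' →
      ∃ q : ℕ, 1 ≤ q ∧ q ≤ Q ^ V.card ∧
        ∀ x ∈ V, |(q : ℝ) * θ x - round ((q : ℝ) * θ x)| ≤ 1 / Q := by
    intro k k' hkk hk' he
    refine ⟨k' - k, by omega, by omega, fun x hx => ?_⟩
    have h1 := congrFun he ⟨x, hx⟩
    have h2 : ⌊(Q : ℝ) * Int.fract ((k : ℝ) * θ x)⌋.toNat
        = ⌊(Q : ℝ) * Int.fract ((k' : ℝ) * θ x)⌋.toNat := congrArg Fin.val h1
    have p1 : 0 ≤ ⌊(Q : ℝ) * Int.fract ((k : ℝ) * θ x)⌋ :=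
      Int.floor_nonneg.2 (mul_nonneg hQ0.le (Int.fract_nonneg _))
    have p2 : 0 ≤ ⌊(Q : ℝ) * Int.fract ((k' : ℝ) * θ x)⌋ :=
      Int.floor_nonneg.2 (mul_nonneg hQ0.le (Int.fract_nonneg _))
    have h3 : ⌊(Q : ℝ) * Int.fract ((k : ℝ) * θ x)⌋
        = ⌊(Q : ℝ) * Int.fract ((k' : ℝ) * θ x)⌋ := by omega
    have h4 := Int.abs_sub_lt_one_of_floor_eq_floor h3
    have h5 : |Int.fract ((k' : ℝ) * θ x) - Int.fract ((k : ℝ) * θ x)| ≤ 1 / Q := by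
      rw [le_div_iff₀ hQ0, abs_sub_comm]
      rw [← mul_sub, abs_mul, abs_of_pos hQ0] at h4
      rw [mul_comm]
      exact h4.le
    refine (round_le (((k' - k : ℕ) : ℝ) * θ x)
      (⌊(k' : ℝ) * θ x⌋ - ⌊(k : ℝ) * θ x⌋)).trans ?_
    have h6 : ((k' - k : ℕ) : ℝ) * θ x - ((⌊(k' : ℝ) * θ x⌋ - ⌊(k : ℝ) * θ x⌋ : ℤ) : ℝ)
        = Int.fract ((k' : ℝ) * θ x) - Int.fract ((k : ℝ) * θ x) := by
      rw [Nat.cast_sub hkk.le]
      unfold Int.fract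
      push_cast
      ring
    rw [h6]
    exact h5
  have hk1 := Finset.mem_range.1 hk
  have hk1' := Finset.mem_range.1 hk'
  rcases lt_or_gt_of_ne hne with h | h
  · exact key k k' h (by omega) heq
  · exact key k' k h (by omega) heq.symm

end Pool.Agent.Helper83.CK
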